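import Mathlib

/-!
Cone moves: homeomorphisms of the plane that move one point inside a convex polygon, fix the
outside, and are affine on the segments from the point to the boundary.
-/

set_option autoImplicit false

namespace Pool.Agent.Lib.MP_ab53bf_co

/-- An affine functional a x + b y + c. -/
def evR (f : ℝ × ℝ × ℝ) (z : ℝ × ℝ) : ℝ := f.1 * z.1 + f.2.1 * z.2 + f.2.2

theorem evR_add_smul (f : ℝ × ℝ × ℝ) (z p q : ℝ × ℝ) (t : ℝ) :
    evR f (z + t • (q - p)) = evR f z + t * (evR f q - evR f p) := by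
  simp only [evR, Prod.fst_add, Prod.snd_add, Prod.smul_fst, Prod.smul_snd, Prod.fst_sub,
    Prod.snd_sub, smul_eq_mul]
  ring

/-- The height of z in the cone over the polygon with apex above p. -/
noncomputable def hgt (l : List (ℝ × ℝ × ℝ)) (p z : ℝ × ℝ) : ℝ :=
  l.foldr (fun f acc => min (evR f z / evR f p) acc) 1

theorem hgt_le_one (l : List (ℝ × ℝ × ℝ)) (p z : ℝ × ℝ) : hgt l p z ≤ 1 := by
  induction l with
  | nil => exact le_rfl
  | cons f l ih => exact (min_le_right _ _).trans ih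

theorem hgt_le {l : List (ℝ × ℝ × ℝ)} (p z : ℝ × ℝ) {f : ℝ × ℝ × ℝ} (hf : f ∈ l) :
    hgt l p z ≤ evR f z / evR f p := by
  induction l with
  | nil => cases hf
  | cons g l ih =>
    rcases List.mem_cons.1 hf with rfl | hf
    · exact min_le_left _ _
    · exact (min_le_right _ _).trans (ih hf)

theorem le_hgt {l : List (ℝ × ℝ × ℝ)} {p z : ℝ × ℝ} {t : ℝ} (h1 : t ≤ 1)
    (h : ∀ f ∈ l, t ≤ evR f z / evR f p) : t ≤ hgt l p z := by
  induction l with
  | nil => exact h1
  | cons g l ih =>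
    exact le_min (h g List.mem_cons_self) (ih fun f hf => h f (List.mem_cons_of_mem _ hf))

theorem hgt_cases (l : List (ℝ × ℝ × ℝ)) (p z : ℝ × ℝ) :
    hgt l p z = 1 ∨ ∃ f ∈ l, hgt l p z = evR f z / evR f p := by
  induction l with
  | nil => exact Or.inl rfl
  | cons g l ih =>
    rcases min_choice (evR g z / evR g p) (hgt l p z) with h | h
    · exact Or.inr ⟨g, List.mem_cons_self, h⟩
    · rcases ih with ih | ⟨f, hf, ih⟩
      · exact Or.inl (h.trans ih)
      · exact Or.inr ⟨f, List.mem_cons_of_mem _ hf, h.trans ih⟩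

theorem continuous_hgt (l : List (ℝ × ℝ × ℝ)) (p : ℝ × ℝ) : Continuous (hgt l p) := by
  induction l with
  | nil => exact continuous_const
  | cons g l ih =>
    refine Continuous.min (Continuous.div_const ?_ _) ih
    unfold evR
    fun_prop

/-- The cone move from p to q. -/
noncomputable def mvFun (l : List (ℝ × ℝ × ℝ)) (p q z : ℝ × ℝ) : ℝ × ℝ :=
  z + max 0 (hgt l p z) • (q - p)

theorem mvFun_of_nonpos {l : List (ℝ × ℝ × ℝ)} {p : ℝ × ℝ} (q : ℝ × ℝ) {z : ℝ × ℝ}
    (hp : ∀ f ∈ l, 0 < evR f p) (hz : ∃ f ∈ l, evR f z ≤ 0) : mvFun l p q z = z := by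
  obtain ⟨f, hf, h⟩ := hz
  have : hgt l p z ≤ 0 :=
    (hgt_le p z hf).trans (div_nonpos_of_nonpos_of_nonneg h (hp f hf).le)
  simp [mvFun, max_eq_left this]

theorem hgt_mvFun {l : List (ℝ × ℝ × ℝ)} {p q : ℝ × ℝ} (hp : ∀ f ∈ l, 0 < evR f p)
    (hq : ∀ f ∈ l, 0 < evR f q) (z : ℝ × ℝ) :
    max 0 (hgt l q (mvFun l p q z)) = max 0 (hgt l p z) := by
  by_cases h : hgt l p z ≤ 0
  · have hz : ∃ f ∈ l, evR f z ≤ 0 := by
      rcases hgt_cases l p z with h1 | ⟨f, hf, h1⟩
      · linarith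
      · refine ⟨f, hf, ?_⟩
        by_contra hc
        have := div_pos (not_le.1 hc) (hp f hf)
        linarith
    rw [mvFun_of_nonpos q hp hz, max_eq_left h]
    obtain ⟨f, hf, h2⟩ := hz
    exact max_eq_left ((hgt_le q z hf).trans (div_nonpos_of_nonpos_of_nonneg h2 (hq f hf).le))
  · have h0 : 0 < hgt l p z := not_le.1 h
    have e : hgt l q (mvFun l p q z) = hgt l p z := by
      unfold mvFun
      rw [max_eq_right h0.le]
      apply le_antisymm
      · rcases hgt_cases l p z with h1 | ⟨f, hf, h1⟩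
        · exact (hgt_le_one _ _ _).trans h1.ge
        · refine (hgt_le q _ hf).trans ?_
          rw [evR_add_smul, div_le_iff₀ (hq f hf)]
          rw [eq_div_iff (hp f hf).ne'] at h1
          linarith
      · refine le_hgt (hgt_le_one _ _ _) fun f hf => ?_
        have h1 := hgt_le p z hf
        rw [le_div_iff₀ (hp f hf)] at h1
        rw [evR_add_smul, le_div_iff₀ (hq f hf)]
        linarith
    rw [e]

theorem mvFun_mvFun {l : List (ℝ × ℝ × ℝ)} {p q : ℝ × ℝ} (hp : ∀ f ∈ l, 0 < evR f p)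
    (hq : ∀ f ∈ l, 0 < evR f q) (z : ℝ × ℝ) : mvFun l q p (mvFun l p q z) = z := by
  rw [mvFun, hgt_mvFun hp hq, mvFun, add_assoc, ← smul_add]
  simp

theorem continuous_mvFun (l : List (ℝ × ℝ × ℝ)) (p q : ℝ × ℝ) : Continuous (mvFun l p q) :=
  continuous_id.add ((continuous_const.max (continuous_hgt l p)).smul continuous_const)

/-- The cone move as a homeomorphism. -/
noncomputable def mvHomeo {l : List (ℝ × ℝ × ℝ)} {p q : ℝ × ℝ} (hp : ∀ f ∈ l, 0 < evR f p)
    (hq : ∀ f ∈ l, 0 < evR f q) : Homeomorph (ℝ × ℝ) (ℝ × ℝ) where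
  toFun := mvFun l p q
  invFun := mvFun l q p
  left_inv := mvFun_mvFun hp hq
  right_inv := mvFun_mvFun hq hp
  continuous_toFun := continuous_mvFun l p q
  continuous_invFun := continuous_mvFun l q p

theorem mvFun_ray {l : List (ℝ × ℝ × ℝ)} {p : ℝ × ℝ} (q : ℝ × ℝ) {w : ℝ × ℝ}
    (hp : ∀ f ∈ l, 0 < evR f p) (hw : ∀ f ∈ l, 0 ≤ evR f w) (hw' : ∃ f ∈ l, evR f w = 0)
    {t : ℝ} (h0 : 0 ≤ t) (h1 : t ≤ 1) : mvFun l p q (p + t • (w - p)) = q + t • (w - q) := by
  have e : hgt l p (p + t • (w - p)) = 1 - t := by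
    apply le_antisymm
    · obtain ⟨f, hf, h⟩ := hw'
      refine (hgt_le p _ hf).trans ?_
      rw [evR_add_smul, div_le_iff₀ (hp f hf), h]
      linarith
    · refine le_hgt (by linarith) fun f hf => ?_
      rw [evR_add_smul, le_div_iff₀ (hp f hf)]
      nlinarith [hw f hf]
  unfold mvFun
  rw [e, max_eq_right (by linarith)]
  module

theorem mvFun_self {l : List (ℝ × ℝ × ℝ)} {p : ℝ × ℝ} (q : ℝ × ℝ) (hp : ∀ f ∈ l, 0 < evR f p) :
    mvFun l p q p = q := by
  have e : hgt l p p = 1 :=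
    le_antisymm (hgt_le_one _ _ _) (le_hgt le_rfl fun f hf => by rw [div_self (hp f hf).ne'])
  unfold mvFun
  rw [e, max_eq_right zero_le_one]
  simp

theorem mv_image_segment {l : List (ℝ × ℝ × ℝ)} {p : ℝ × ℝ} (q : ℝ × ℝ) {w : ℝ × ℝ}
    (hp : ∀ f ∈ l, 0 < evR f p) (hw : ∀ f ∈ l, 0 ≤ evR f w) (hw' : ∃ f ∈ l, evR f w = 0) :
    mvFun l p q '' segment ℝ p w = segment ℝ q w := by
  rw [segment_eq_image', segment_eq_image', Set.image_image]
  apply Set.image_congr
  intro t ht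
  exact mvFun_ray q hp hw hw' ht.1 ht.2

theorem mv_image_of_avoid {l : List (ℝ × ℝ × ℝ)} {p : ℝ × ℝ} (q : ℝ × ℝ) {s : Set (ℝ × ℝ)}
    (hp : ∀ f ∈ l, 0 < evR f p) (hs : ∀ z ∈ s, ∃ f ∈ l, evR f z ≤ 0) :
    mvFun l p q '' s = s := by
  conv_rhs => rw [← Set.image_id s]
  apply Set.image_congr
  intro z hz
  exact mvFun_of_nonpos q hp (hs z hz)

theorem avoid_segment {f g : ℝ × ℝ × ℝ} {a b : ℝ × ℝ} (ha : evR f a ≤ 0) (hb : evR g b ≤ 0)
    (h : evR f b ≤ 0 ∨ evR g a ≤ 0 ∨ evR g a * evR f b ≤ evR f a * evR g b) {z : ℝ × ℝ}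
    (hz : z ∈ segment ℝ a b) : evR f z ≤ 0 ∨ evR g z ≤ 0 := by
  rw [segment_eq_image'] at hz
  obtain ⟨t, ⟨h0, h1⟩, rfl⟩ := hz
  dsimp only
  rw [evR_add_smul, evR_add_smul]
  by_contra hc
  rw [not_or, not_le, not_le] at hc
  obtain ⟨c1, c2⟩ := hc
  have d1 : 0 < t * evR f b := by nlinarith
  have d2 : 0 < (1 - t) * evR g a := by nlinarith
  rcases h with h | h | h
  · nlinarith
  · nlinarith
  · have t0 : 0 < t := by
      rcases h0.eq_or_lt with rfl | h0
      · simp at d1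
      · exact h0
    have t1 : 0 < 1 - t := by
      rcases h1.eq_or_lt with rfl | h1
      · simp at d2
      · linarith
    have e1 : (1 - t) * (-evR f a) < t * evR f b := by linarith
    have e2 : t * (-evR g b) < (1 - t) * evR g a := by linarith
    have e3 := mul_lt_mul'' e1 e2 (by nlinarith) (by nlinarith)
    have e4 : 0 < t * (1 - t) := mul_pos t0 t1
    nlinarith

/-- Two labelled families of plane sets are related by a homeomorphism of the plane. -/
def LEqv {ι : Type*} (F G : ι → Set (ℝ × ℝ)) : Prop :=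
  ∃ h : Homeomorph (ℝ × ℝ) (ℝ × ℝ), ∀ k, h '' F k = G k

theorem LEqv.refl {ι : Type*} (F : ι → Set (ℝ × ℝ)) : LEqv F F :=
  ⟨Homeomorph.refl _, fun k => by simp⟩

theorem LEqv.symm {ι : Type*} {F G : ι → Set (ℝ × ℝ)} (h : LEqv F G) : LEqv G F := by
  obtain ⟨h, hh⟩ := h
  refine ⟨h.symm, fun k => ?_⟩
  rw [← hh k, Set.image_image]
  simp

theorem LEqv.trans {ι : Type*} {F G H : ι → Set (ℝ × ℝ)} (h : LEqv F G) (h' : LEqv G H) :
    LEqv F H := by
  obtain ⟨h, hh⟩ := h
  obtain ⟨h', hh'⟩ := h'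
  refine ⟨h.trans h', fun k => ?_⟩
  rw [← hh' k, ← hh k, Set.image_image]
  rfl

theorem segment_split {a b r : ℝ × ℝ} (hr : r ∈ segment ℝ a b) :
    segment ℝ a b = segment ℝ a r ∪ segment ℝ r b := by
  apply Set.Subset.antisymm
  · have hr' : r ∈ Set.range (AffineMap.lineMap a b : ℝ → ℝ × ℝ) := by
      rw [segment_eq_image_lineMap] at hr
      exact Set.image_subset_range _ _ hr
    rw [← insert_endpoints_openSegment]
    rintro z (rfl | rfl | hz)
    · exact Or.inl (left_mem_segment _ _ _)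
    · exact Or.inr (right_mem_segment _ _ _)
    · rcases openSegment_subset_union a b hr' hz with rfl | hz | hz
      · exact Or.inl (right_mem_segment _ _ _)
      · exact Or.inl (openSegment_subset_segment _ _ _ hz)
      · exact Or.inr (openSegment_subset_segment _ _ _ hz)
  · exact Set.union_subset
      ((convex_segment a b).segment_subset (left_mem_segment _ _ _) hr)
      ((convex_segment a b).segment_subset hr (right_mem_segment _ _ _))

end Pool.Agent.Lib.MP_ab53bf_co
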