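import Mathlib
import Pool.Agent.Lib.MP_ab53bf_co.Move

/-!
A checker for sequences of cone moves and subdivisions on labelled lists of integer segments.
-/

set_option autoImplicit false

namespace Pool.Agent.Lib.MP_ab53bf_co

abbrev Pt := ℤ × ℤ
abbrev Fn := ℤ × ℤ × ℤ
abbrev Seg := (ℕ × ℕ) × Pt × Pt

def toR (p : Pt) : ℝ × ℝ := ((p.1 : ℝ), (p.2 : ℝ))
def fnR (f : Fn) : ℝ × ℝ × ℝ := ((f.1 : ℝ), (f.2.1 : ℝ), (f.2.2 : ℝ))
def ev (f : Fn) (p : Pt) : ℤ := f.1 * p.1 + f.2.1 * p.2 + f.2.2

theorem evR_toR (f : Fn) (p : Pt) : evR (fnR f) (toR p) = (ev f p : ℝ) := by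
  simp [evR, fnR, toR, ev]

def inside (fs : List Fn) (p : Pt) : Bool := fs.all fun f => decide (0 < ev f p)

def bdry (fs : List Fn) (w : Pt) : Bool :=
  (fs.all fun f => decide (0 ≤ ev f w)) && fs.any fun f => decide (ev f w = 0)

def avoid (fs : List Fn) (a b : Pt) : Bool :=
  fs.any fun f => decide (ev f a ≤ 0) && fs.any fun g => decide (ev g b ≤ 0) &&
    (decide (ev f b ≤ 0) || decide (ev g a ≤ 0) || decide (ev g a * ev f b ≤ ev f a * ev g b))

theorem inside_sound {fs : List Fn} {p : Pt} (h : inside fs p = true) :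
    ∀ f ∈ fs.map fnR, 0 < evR f (toR p) := by
  intro f hf
  obtain ⟨g, hg, rfl⟩ := List.mem_map.1 hf
  have := List.all_eq_true.1 h g hg
  rw [evR_toR]
  exact_mod_cast of_decide_eq_true this

theorem bdry_sound {fs : List Fn} {w : Pt} (h : bdry fs w = true) :
    (∀ f ∈ fs.map fnR, 0 ≤ evR f (toR w)) ∧ ∃ f ∈ fs.map fnR, evR f (toR w) = 0 := by
  rw [bdry, Bool.and_eq_true] at h
  constructor
  · intro f hf
    obtain ⟨g, hg, rfl⟩ := List.mem_map.1 hf
    have := List.all_eq_true.1 h.1 g hg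
    rw [evR_toR]
    exact_mod_cast of_decide_eq_true this
  · obtain ⟨g, hg, h2⟩ := List.any_eq_true.1 h.2
    refine ⟨fnR g, List.mem_map_of_mem hg, ?_⟩
    rw [evR_toR]
    exact_mod_cast of_decide_eq_true h2

theorem avoid_sound {fs : List Fn} {a b : Pt} (h : avoid fs a b = true) :
    ∀ z ∈ segment ℝ (toR a) (toR b), ∃ f ∈ fs.map fnR, evR f z ≤ 0 := by
  intro z hz
  obtain ⟨f, hf, h1⟩ := List.any_eq_true.1 h
  rw [Bool.and_eq_true] at h1
  obtain ⟨g, hg, h2⟩ := List.any_eq_true.1 h1.2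
  simp only [Bool.and_eq_true, Bool.or_eq_true, decide_eq_true_eq] at h1 h2
  have := avoid_segment (f := fnR f) (g := fnR g) (a := toR a) (b := toR b)
    (by rw [evR_toR]; exact_mod_cast h1.1) (by rw [evR_toR]; exact_mod_cast h2.1)
    (by
      simp only [evR_toR]
      rcases h2.2 with (h3 | h3) | h3
      · left; exact_mod_cast h3
      · right; left; exact_mod_cast h3
      · right; right; exact_mod_cast h3) hz
  rcases this with h4 | h4
  · exact ⟨_, List.mem_map_of_mem hf, h4⟩
  · exact ⟨_, List.mem_map_of_mem hg, h4⟩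

/-- The labelled family of sets drawn by a list of labelled segments. -/
def fam (L : List Seg) (k : ℕ × ℕ) : Set (ℝ × ℝ) :=
  ⋃ s ∈ {s | s ∈ L ∧ s.1 = k}, segment ℝ (toR s.2.1) (toR s.2.2)

def rep (p q z : Pt) : Pt := if z = p then q else z

def segOk (fs : List Fn) (p a b : Pt) : Bool :=
  if a = p then (decide (b = p) || bdry fs b) else if b = p then bdry fs a else avoid fs a b

theorem segOk_sound {fs : List Fn} {p q a b : Pt} (hp : inside fs p = true)
    (h : segOk fs p a b = true) :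
    mvFun (fs.map fnR) (toR p) (toR q) '' segment ℝ (toR a) (toR b) =
      segment ℝ (toR (rep p q a)) (toR (rep p q b)) := by
  have hp' := inside_sound hp
  have nb : ∀ w, bdry fs w = true → w ≠ p := by
    rintro w hw rfl
    obtain ⟨f, hf, h0⟩ := (bdry_sound hw).2
    exact (hp' f hf).ne' h0
  unfold segOk at h
  split_ifs at h with h1 h2
  · subst h1
    rw [Bool.or_eq_true, decide_eq_true_eq] at h
    rcases h with rfl | h
    · simp [rep, mvFun_self _ hp']
    · simp only [rep, if_true, if_neg (nb b h)]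
      exact mv_image_segment _ hp' (bdry_sound h).1 (bdry_sound h).2
  · subst h2
    simp only [rep, if_true, if_neg h1]
    rw [segment_symm, segment_symm ℝ (toR a)]
    exact mv_image_segment _ hp' (bdry_sound h).1 (bdry_sound h).2
  · simp only [rep, if_neg h1, if_neg h2]
    exact mv_image_of_avoid _ hp' (avoid_sound h)

def onSeg (a b r : Pt) : Bool :=
  decide ((b.1 - a.1) * (r.2 - a.2) = (b.2 - a.2) * (r.1 - a.1)) &&
  decide (0 ≤ (r.1 - a.1) * (b.1 - a.1) + (r.2 - a.2) * (b.2 - a.2)) &&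
  decide (0 ≤ (b.1 - r.1) * (b.1 - a.1) + (b.2 - r.2) * (b.2 - a.2)) &&
  decide (0 < (b.1 - a.1) * (b.1 - a.1) + (b.2 - a.2) * (b.2 - a.2))

theorem mem_segment_of {a b r : ℝ × ℝ}
    (h1 : (b.1 - a.1) * (r.2 - a.2) = (b.2 - a.2) * (r.1 - a.1))
    (h2 : 0 ≤ (r.1 - a.1) * (b.1 - a.1) + (r.2 - a.2) * (b.2 - a.2))
    (h3 : 0 ≤ (b.1 - r.1) * (b.1 - a.1) + (b.2 - r.2) * (b.2 - a.2))
    (h4 : 0 < (b.1 - a.1) * (b.1 - a.1) + (b.2 - a.2) * (b.2 - a.2)) : r ∈ segment ℝ a b := by
  rw [segment_eq_image']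
  refine ⟨((r.1 - a.1) * (b.1 - a.1) + (r.2 - a.2) * (b.2 - a.2)) /
    ((b.1 - a.1) * (b.1 - a.1) + (b.2 - a.2) * (b.2 - a.2)), ⟨div_nonneg h2 h4.le, ?_⟩, ?_⟩
  · rw [div_le_one h4]
    linarith
  · ext
    · simp only [Prod.fst_add, Prod.smul_fst, Prod.fst_sub, smul_eq_mul]
      rw [div_mul_eq_mul_div, ← eq_sub_iff_add_eq', div_eq_iff h4.ne']
      linear_combination (b.2 - a.2) * h1
    · simp only [Prod.snd_add, Prod.smul_snd, Prod.snd_sub, smul_eq_mul]
      rw [div_mul_eq_mul_div, ← eq_sub_iff_add_eq', div_eq_iff h4.ne']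
      linear_combination (-(b.1 - a.1)) * h1

theorem onSeg_sound {a b r : Pt} (h : onSeg a b r = true) :
    toR r ∈ segment ℝ (toR a) (toR b) := by
  simp only [onSeg, Bool.and_eq_true, decide_eq_true_eq] at h
  obtain ⟨⟨⟨h1, h2⟩, h3⟩, h4⟩ := h
  apply mem_segment_of <;> simp only [toR]
  · exact_mod_cast h1
  · exact_mod_cast h2
  · exact_mod_cast h3
  · exact_mod_cast h4

/-- The two kinds of steps. -/
inductive Op
  | sub (a b r : Pt)
  | mv (fs : List Fn) (p q : Pt)

def step (L : List Seg) : Op → Option (List Seg)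
  | .sub a b r => if onSeg a b r then
      some (L.flatMap fun s => if s.2 = (a, b) then [(s.1, a, r), (s.1, r, b)] else [s]) else none
  | .mv fs p q => if inside fs p && inside fs q && L.all (fun s => segOk fs p s.2.1 s.2.2) then
      some (L.map fun s => (s.1, rep p q s.2.1, rep p q s.2.2)) else none

def run : List Seg → List Op → Option (List Seg)
  | L, [] => some L
  | L, o :: os => (step L o).bind fun L' => run L' os

theorem step_sound {L L' : List Seg} {o : Op} (h : step L o = some L') :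
    LEqv (fam L) (fam L') := by
  cases o with
  | sub a b r =>
    simp only [step] at h
    split_ifs at h with h1
    have hr := segment_split (onSeg_sound h1)
    simp only [Option.some.injEq] at h
    subst h
    have : fam L = fam (L.flatMap fun s =>
        if s.2 = (a, b) then [(s.1, a, r), (s.1, r, b)] else [s]) := by
      funext k
      ext z
      simp only [fam, Set.mem_iUnion, Set.mem_ofPred_eq, exists_prop, List.mem_flatMap]
      constructor
      · rintro ⟨s, ⟨hs, hk⟩, hz⟩
        by_cases hab : s.2 = (a, b)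
        · rw [hab] at hz
          dsimp only at hz
          rw [hr] at hz
          rcases hz with hz | hz
          · exact ⟨(s.1, a, r), ⟨⟨s, hs, by simp [hab]⟩, hk⟩, hz⟩
          · exact ⟨(s.1, r, b), ⟨⟨s, hs, by simp [hab]⟩, hk⟩, hz⟩
        · exact ⟨s, ⟨⟨s, hs, by simp [hab]⟩, hk⟩, hz⟩
      · rintro ⟨s', ⟨⟨s, hs, hs'⟩, hk⟩, hz⟩
        by_cases hab : s.2 = (a, b)
        · simp only [hab, if_true, List.mem_cons, List.not_mem_nil, or_false] at hs'
          refine ⟨s, ⟨hs, ?_⟩, ?_⟩
          · rcases hs' with rfl | rfl <;> exact hk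
          · rw [hab]
            dsimp only
            rw [hr]
            rcases hs' with rfl | rfl
            · exact Or.inl hz
            · exact Or.inr hz
        · simp only [hab, if_false, List.mem_cons, List.not_mem_nil, or_false] at hs'
          subst hs'
          exact ⟨s', ⟨hs, hk⟩, hz⟩
    rw [← this]
    exact LEqv.refl _
  | mv fs p q =>
    simp only [step] at h
    split_ifs at h with h1
    simp only [Bool.and_eq_true, List.all_eq_true] at h1
    obtain ⟨⟨hp, hq⟩, hL⟩ := h1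
    simp only [Option.some.injEq] at h
    subst h
    refine ⟨mvHomeo (inside_sound hp) (inside_sound hq), fun k => ?_⟩
    change mvFun (fs.map fnR) (toR p) (toR q) '' _ = _
    ext z
    simp only [fam, Set.image_iUnion, Set.mem_iUnion, Set.mem_ofPred_eq, exists_prop,
      List.mem_map]
    constructor
    · rintro ⟨s, ⟨hs, hk⟩, hz⟩
      rw [segOk_sound hp (hL s hs)] at hz
      exact ⟨_, ⟨⟨s, hs, rfl⟩, hk⟩, hz⟩
    · rintro ⟨_, ⟨⟨s, hs, rfl⟩, hk⟩, hz⟩
      refine ⟨s, ⟨hs, hk⟩, ?_⟩
      rw [segOk_sound hp (hL s hs)]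
      exact hz

theorem run_sound {os : List Op} {L L' : List Seg} (h : run L os = some L') :
    LEqv (fam L) (fam L') := by
  induction os generalizing L with
  | nil =>
    simp only [run, Option.some.injEq] at h
    subst h
    exact LEqv.refl _
  | cons o os ih =>
    simp only [run] at h
    obtain ⟨L1, h1, h2⟩ := Option.bind_eq_some_iff.1 h
    exact (step_sound h1).trans (ih h2)

end Pool.Agent.Lib.MP_ab53bf_co
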