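import Mathlib

/-!
Planar polygons: edges, the short extra edges at the vertices, ordinary and proper polygons,
parallel corresponding edges, dihedral relabellings.
-/

set_option autoImplicit false

namespace Pool.Agent.Lib.MP_ab53bf_co

/-- The i-th edge of the polygon x. -/
def Edge {n : ℕ} (x : Fin n → ℝ × ℝ) (i : Fin n) : Set (ℝ × ℝ) :=
  segment ℝ (x i) (x (finRotate n i))

/-- The free end of the short extra edge at the i-th vertex; it points into the reflex angle. -/
def Pend {n : ℕ} (x : Fin n → ℝ × ℝ) (ε : ℝ) (i : Fin n) : ℝ × ℝ :=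
  x i + ε • ((2 : ℝ) • x i - x ((finRotate n).symm i) - x (finRotate n i))

/-- No point lies on three edges. -/
def Ordinary {n : ℕ} (x : Fin n → ℝ × ℝ) : Prop :=
  ∀ (p : ℝ × ℝ) (i j k : Fin n), p ∈ Edge x i → p ∈ Edge x j → p ∈ Edge x k →
    i = j ∨ j = k ∨ i = k

/-- Consecutive vertices differ and consecutive edges are not collinear. -/
def Proper {n : ℕ} (x : Fin n → ℝ × ℝ) : Prop :=
  (∀ i, x i ≠ x (finRotate n i)) ∧
    ∀ i, ¬ Collinear ℝ ({x ((finRotate n).symm i), x i, x (finRotate n i)} : Set (ℝ × ℝ))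

/-- Corresponding edges have the same direction. -/
def Parallel {n : ℕ} (x z : Fin n → ℝ × ℝ) : Prop :=
  ∀ i, ∃ c : ℝ, 0 < c ∧ z (finRotate n i) - z i = c • (x (finRotate n i) - x i)

/-- Cyclic relabellings and reversals. -/
def Dihedral {n : ℕ} (σ : Equiv.Perm (Fin n)) : Prop :=
  (∀ i, σ (finRotate n i) = finRotate n (σ i)) ∨ (∀ i, σ (finRotate n i) = (finRotate n).symm (σ i))

/-- Same pattern, in the strong sense that respects the labels: for all small lengths of the extra
edges, a homeomorphism of the plane takes each vertex, edge and extra edge of x to the vertex,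
edge and extra edge of y with the same label. -/
def SameLabelledPattern {n : ℕ} (x y : Fin n → ℝ × ℝ) : Prop :=
  ∃ δ : ℝ, 0 < δ ∧ ∀ ε₁ ε₂ : ℝ, 0 < ε₁ → ε₁ < δ → 0 < ε₂ → ε₂ < δ →
    ∃ h : Homeomorph (ℝ × ℝ) (ℝ × ℝ), ∀ i, h (x i) = y i ∧ h '' Edge x i = Edge y i ∧
      h (Pend x ε₁ i) = Pend y ε₂ i ∧
      h '' segment ℝ (x i) (Pend x ε₁ i) = segment ℝ (y i) (Pend y ε₂ i)

end Pool.Agent.Lib.MP_ab53bf_co
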