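import Mathlib
import Pool.Agent.Lib.MP_ab53bf_co.Defs
import Pool.Agent.Lib.MP_ab53bf_co.Check

/-!
The lengths of the extra edges can be normalised; integer polygons and their checks.
-/

set_option autoImplicit false

namespace Pool.Agent.Lib.MP_ab53bf_co

/-- The labelled family of a polygon with extra edges of individual lengths. -/
def PF {n : ℕ} (x : Fin n → ℝ × ℝ) (ε : Fin n → ℝ) (k : Fin 4 × Fin n) : Set (ℝ × ℝ) :=
  ![Edge x k.2, segment ℝ (x k.2) (Pend x (ε k.2) k.2), segment ℝ (x k.2) (x k.2),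
    segment ℝ (Pend x (ε k.2) k.2) (Pend x (ε k.2) k.2)] k.1

theorem pend_eq {n : ℕ} (x : Fin n → ℝ × ℝ) {ε ε₀ : ℝ} (h : 0 < ε₀) (i : Fin n) :
    Pend x ε i = x i + (ε / ε₀) • (Pend x ε₀ i - x i) := by
  simp only [Pend, add_sub_cancel_left, smul_smul]
  rw [div_mul_cancel₀ _ h.ne']

theorem pend_mem {n : ℕ} (x : Fin n → ℝ × ℝ) {ε ε₀ : ℝ} (h0 : 0 < ε) (h : ε ≤ ε₀) (i : Fin n) :
    Pend x ε i ∈ segment ℝ (x i) (Pend x ε₀ i) := by
  have h1 : 0 < ε₀ := h0.trans_le h
  rw [segment_eq_image']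
  exact ⟨ε / ε₀, ⟨by positivity, (div_le_one h1).2 h⟩, (pend_eq x h1 i).symm⟩

theorem pf_normalise {n : ℕ} (x : Fin n → ℝ × ℝ) {ε₀ : ℝ} (Δ : Fin n → List (ℝ × ℝ × ℝ))
    (ha : ∀ i, ∀ f ∈ Δ i, 0 < evR f (Pend x ε₀ i))
    (hb : ∀ i, (∀ f ∈ Δ i, 0 ≤ evR f (x i)) ∧ ∃ f ∈ Δ i, evR f (x i) = 0)
    (hc : ∀ i j, ∀ z ∈ Edge x j, ∃ f ∈ Δ i, evR f z ≤ 0)
    (hd : ∀ i j, j ≠ i → ∀ z ∈ segment ℝ (x j) (Pend x ε₀ j), ∃ f ∈ Δ i, evR f z ≤ 0)
    (ε : Fin n → ℝ) (hε : ∀ i, 0 < ε i ∧ ε i ≤ ε₀) : LEqv (PF x ε) (PF x fun _ => ε₀) := by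
  classical
  have one : ∀ (ε : Fin n → ℝ), (∀ i, 0 < ε i ∧ ε i ≤ ε₀) → ∀ i,
      LEqv (PF x ε) (PF x (Function.update ε i ε₀)) := by
    intro ε hε i
    have h0 : 0 < ε₀ := (hε i).1.trans_le (hε i).2
    have hp : ∀ f ∈ Δ i, 0 < evR f (Pend x (ε i) i) := by
      intro f hf
      rw [pend_eq x h0, evR_add_smul]
      have h1 : 0 < ε i / ε₀ := div_pos (hε i).1 h0
      have h2 : ε i / ε₀ ≤ 1 := (div_le_one h0).2 (hε i).2
      nlinarith [ha i f hf, (hb i).1 f hf]
    refine ⟨mvHomeo hp (ha i), ?_⟩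
    rintro ⟨a, j⟩
    change mvFun (Δ i) (Pend x (ε i) i) (Pend x ε₀ i) '' _ = _
    have hsub : segment ℝ (x j) (Pend x (ε j) j) ⊆ segment ℝ (x j) (Pend x ε₀ j) :=
      (convex_segment _ _).segment_subset (left_mem_segment _ _ _) (pend_mem x (hε j).1 (hε j).2 j)
    fin_cases a
    · exact mv_image_of_avoid _ hp (hc i j)
    · change _ '' segment ℝ (x j) (Pend x (ε j) j) =
        segment ℝ (x j) (Pend x (Function.update ε i ε₀ j) j)
      by_cases hj : j = i
      · subst hj
        rw [Function.update_self, segment_symm, segment_symm ℝ (x j)]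
        exact mv_image_segment _ hp (hb j).1 (hb j).2
      · rw [Function.update_of_ne hj]
        exact mv_image_of_avoid _ hp fun z hz => hd i j hj z (hsub hz)
    · change _ '' segment ℝ (x j) (x j) = segment ℝ (x j) (x j)
      refine mv_image_of_avoid _ hp fun z hz => hc i j z ?_
      rw [segment_same, Set.mem_singleton_iff] at hz
      rw [hz]
      exact left_mem_segment _ _ _
    · change _ '' segment ℝ (Pend x (ε j) j) (Pend x (ε j) j) =
        segment ℝ (Pend x (Function.update ε i ε₀ j) j) (Pend x (Function.update ε i ε₀ j) j)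
      by_cases hj : j = i
      · subst hj
        rw [Function.update_self, segment_same, segment_same, Set.image_singleton,
          mvFun_self _ hp]
      · rw [Function.update_of_ne hj]
        refine mv_image_of_avoid _ hp fun z hz => hd i j hj z (hsub ?_)
        rw [segment_same, Set.mem_singleton_iff] at hz
        rw [hz]
        exact right_mem_segment _ _ _
  have key : ∀ s : Finset (Fin n), LEqv (PF x ε) (PF x fun j => if j ∈ s then ε₀ else ε j) := by
    intro s
    induction s using Finset.induction_on with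
    | empty => simpa using LEqv.refl _
    | insert i s hi ih =>
      refine ih.trans ?_
      have := one (fun j => if j ∈ s then ε₀ else ε j) (fun j => by
        split_ifs
        · exact ⟨(hε j).1.trans_le (hε j).2, le_rfl⟩
        · exact hε j) i
      have e : Function.update (fun j => if j ∈ s then ε₀ else ε j) i ε₀ =
          fun j => if j ∈ insert i s then ε₀ else ε j := by
        funext j
        by_cases hj : j = i
        · subst hj; simp
        · simp [Function.update_of_ne hj, hj]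
      rwa [e] at this
  simpa using key Finset.univ

/-- The labelled segments of an integer polygon X with ends E of the extra edges. -/
def segs {n : ℕ} (X E : Fin n → Pt) : List Seg :=
  (List.finRange n).flatMap fun i =>
    [((0, i.1), X i, X (finRotate n i)), ((1, i.1), X i, E i), ((2, i.1), X i, X i),
      ((3, i.1), E i, E i)]

theorem fam_segs {n : ℕ} (X E : Fin n → Pt) {ε₀ : ℝ}
    (hE : ∀ i, toR (E i) = Pend (fun j => toR (X j)) ε₀ i) (k : Fin 4 × Fin n) :
    fam (segs X E) (k.1.1, k.2.1) = PF (fun j => toR (X j)) (fun _ => ε₀) k := by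
  obtain ⟨a, i⟩ := k
  have key : ∀ (b : ℕ) (P Q : Pt), ((b, i.1), P, Q) ∈ segs X E →
      (∀ s ∈ segs X E, s.1 = (b, i.1) → s = ((b, i.1), P, Q)) →
      fam (segs X E) (b, i.1) = segment ℝ (toR P) (toR Q) := by
    intro b P Q h1 h2
    ext z
    simp only [fam, Set.mem_iUnion, Set.mem_ofPred_eq, exists_prop]
    constructor
    · rintro ⟨s, ⟨hs, hk⟩, hz⟩
      rwa [h2 s hs hk] at hz
    · intro hz
      exact ⟨_, ⟨h1, rfl⟩, hz⟩
  have mem : ∀ s, s ∈ segs X E ↔ ∃ j : Fin n, s = ((0, j.1), X j, X (finRotate n j)) ∨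
      s = ((1, j.1), X j, E j) ∨ s = ((2, j.1), X j, X j) ∨ s = ((3, j.1), E j, E j) := by
    intro s
    simp [segs, List.mem_flatMap]
  have uniq : ∀ (b : ℕ) (P Q : Fin n → Pt),
      (∀ j : Fin n, ∀ s, (s = ((0, j.1), X j, X (finRotate n j)) ∨
        s = ((1, j.1), X j, E j) ∨ s = ((2, j.1), X j, X j) ∨ s = ((3, j.1), E j, E j)) →
        s.1.1 = b → s = ((b, j.1), P j, Q j)) →
      ∀ s ∈ segs X E, s.1 = (b, i.1) → s = ((b, i.1), P i, Q i) := by
    intro b P Q h s hs hk
    obtain ⟨j, hj⟩ := (mem s).1 hs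
    have h1 := h j s hj (by rw [hk])
    have h2 : j = i := by
      rw [h1] at hk
      exact Fin.ext (by simpa using hk)
    rwa [h2] at h1
  fin_cases a
  · refine key 0 _ _ ((mem _).2 ⟨i, Or.inl rfl⟩) (uniq 0 X (fun j => X (finRotate n j)) ?_)
    rintro j s (rfl | rfl | rfl | rfl) h <;> first | rfl | (exfalso; revert h; dsimp only; omega)
  · change _ = segment ℝ (toR (X i)) (Pend (fun j => toR (X j)) ε₀ i)
    rw [← hE]
    refine key 1 _ _ ((mem _).2 ⟨i, Or.inr (Or.inl rfl)⟩) (uniq 1 X E ?_)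
    rintro j s (rfl | rfl | rfl | rfl) h <;> first | rfl | (exfalso; revert h; dsimp only; omega)
  · refine key 2 _ _ ((mem _).2 ⟨i, Or.inr (Or.inr (Or.inl rfl))⟩) (uniq 2 X X ?_)
    rintro j s (rfl | rfl | rfl | rfl) h <;> first | rfl | (exfalso; revert h; dsimp only; omega)
  · change _ = segment ℝ (Pend (fun j => toR (X j)) ε₀ i) (Pend (fun j => toR (X j)) ε₀ i)
    rw [← hE]
    refine key 3 _ _ ((mem _).2 ⟨i, Or.inr (Or.inr (Or.inr rfl))⟩) (uniq 3 E E ?_)
    rintro j s (rfl | rfl | rfl | rfl) h <;> first | rfl | (exfalso; revert h; dsimp only; omega)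

/-- The check of the small triangles at the vertices. -/
def pendOk {n : ℕ} (X E : Fin n → Pt) (Δ : Fin n → List Fn) : Prop :=
  ∀ i, inside (Δ i) (E i) = true ∧ bdry (Δ i) (X i) = true ∧
    (∀ j, avoid (Δ i) (X j) (X (finRotate n j)) = true) ∧
    ∀ j, j ≠ i → avoid (Δ i) (X j) (E j) = true

instance {n : ℕ} (X E : Fin n → Pt) (Δ : Fin n → List Fn) : Decidable (pendOk X E Δ) := by
  unfold pendOk; infer_instance

theorem leqv_of_pendOk {n : ℕ} {X E : Fin n → Pt} {Δ : Fin n → List Fn} (h : pendOk X E Δ)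
    {ε₀ : ℝ} (hE : ∀ i, toR (E i) = Pend (fun j => toR (X j)) ε₀ i) {ε : ℝ} (h0 : 0 < ε)
    (h1 : ε ≤ ε₀) :
    LEqv (PF (fun j => toR (X j)) fun _ => ε) (PF (fun j => toR (X j)) fun _ => ε₀) := by
  refine pf_normalise _ (fun i => (Δ i).map fnR) ?_ ?_ ?_ ?_ _ fun _ => ⟨h0, h1⟩
  · intro i
    rw [← hE]
    exact inside_sound (h i).1
  · intro i
    exact bdry_sound (h i).2.1
  · intro i j
    exact avoid_sound ((h i).2.2.1 j)
  · intro i j hj
    rw [← hE]
    exact avoid_sound ((h i).2.2.2 j hj)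

theorem samePattern_of_check {n : ℕ} {X E Y F : Fin n → Pt} {Δ Θ : Fin n → List Fn}
    (hX : pendOk X E Δ) (hY : pendOk Y F Θ) {ε₀ : ℝ} (hε : 0 < ε₀)
    (hE : ∀ i, toR (E i) = Pend (fun j => toR (X j)) ε₀ i)
    (hF : ∀ i, toR (F i) = Pend (fun j => toR (Y j)) ε₀ i) {os os' : List Op} {L : List Seg}
    (h1 : run (segs X E) os = some L) (h2 : run (segs Y F) os' = some L) :
    SameLabelledPattern (fun j => toR (X j)) (fun j => toR (Y j)) := by
  refine ⟨ε₀, hε, fun ε₁ ε₂ a1 a2 b1 b2 => ?_⟩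
  have h3 : LEqv (PF (fun j => toR (X j)) fun _ => ε₀) (PF (fun j => toR (Y j)) fun _ => ε₀) := by
    obtain ⟨h, hh⟩ := (run_sound h1).trans (run_sound h2).symm
    refine ⟨h, fun k => ?_⟩
    rw [← fam_segs X E hE, ← fam_segs Y F hF]
    exact hh _
  obtain ⟨h, hh⟩ := ((leqv_of_pendOk hX hE a1 a2.le).trans h3).trans
    (leqv_of_pendOk hY hF b1 b2.le).symm
  refine ⟨h, fun i => ⟨?_, hh (0, i), ?_, hh (1, i)⟩⟩
  · have := hh (2, i)
    change h '' segment ℝ _ _ = segment ℝ _ _ at this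
    rw [segment_same, segment_same, Set.image_singleton] at this
    exact Set.singleton_injective this
  · have := hh (3, i)
    change h '' segment ℝ _ _ = segment ℝ _ _ at this
    rw [segment_same, segment_same, Set.image_singleton] at this
    exact Set.singleton_injective this

/-- The functional of the line through a and b. -/
def lineFn (a b : Pt) : Fn := (a.2 - b.2, b.1 - a.1, a.1 * b.2 - a.2 * b.1)

def det3 (f g h : Fn) : ℤ :=
  f.1 * (g.2.1 * h.2.2 - g.2.2 * h.2.1) - f.2.1 * (g.1 * h.2.2 - g.2.2 * h.1) +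
    f.2.2 * (g.1 * h.2.1 - g.2.1 * h.1)

theorem line_of_mem {a b : Pt} {z : ℝ × ℝ} (hz : z ∈ segment ℝ (toR a) (toR b)) :
    evR (fnR (lineFn a b)) z = 0 := by
  rw [segment_eq_image'] at hz
  obtain ⟨t, -, rfl⟩ := hz
  dsimp only
  rw [evR_add_smul, evR_toR, evR_toR]
  simp only [ev, lineFn]
  push_cast
  ring

/-- Both ends of the j-th edge lie strictly on one side of the line of the i-th edge. -/
def sepE {n : ℕ} (X : Fin n → Pt) (i j : Fin n) : Prop :=
  0 < ev (lineFn (X i) (X (finRotate n i))) (X j) *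
    ev (lineFn (X i) (X (finRotate n i))) (X (finRotate n j))

instance {n : ℕ} (X : Fin n → Pt) (i j : Fin n) : Decidable (sepE X i j) := by
  unfold sepE; infer_instance

theorem not_mem_of_sepE {n : ℕ} {X : Fin n → Pt} {i j : Fin n} (h : sepE X i j) {p : ℝ × ℝ}
    (hi : p ∈ Edge (fun j => toR (X j)) i) (hj : p ∈ Edge (fun j => toR (X j)) j) : False := by
  have a1 := line_of_mem hi
  unfold sepE at h
  generalize lineFn (X i) (X (finRotate n i)) = f at *
  unfold Edge at hj
  rw [segment_eq_image'] at hj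
  obtain ⟨t, ⟨t0, t1⟩, rfl⟩ := hj
  dsimp only at a1
  rw [evR_add_smul, evR_toR, evR_toR] at a1
  have h' : (0 : ℝ) < (ev f (X j) : ℝ) * (ev f (X (finRotate n j)) : ℝ) := by exact_mod_cast h
  generalize (ev f (X j) : ℝ) = a at *
  generalize (ev f (X (finRotate n j)) : ℝ) = b at *
  rcases pos_and_pos_or_neg_and_neg_of_mul_pos h' with ⟨ha, hb⟩ | ⟨ha, hb⟩
  · nlinarith [mul_nonneg t0 hb.le, mul_nonneg (sub_nonneg.2 t1) ha.le, mul_pos ha hb,
      le_total a b]
  · nlinarith [mul_nonneg t0 (neg_pos.2 hb).le, mul_nonneg (sub_nonneg.2 t1) (neg_pos.2 ha).le]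

theorem ordinary_of_check {n : ℕ} {X : Fin n → Pt}
    (h : ∀ i j k : Fin n, i = j ∨ j = k ∨ i = k ∨ det3 (lineFn (X i) (X (finRotate n i)))
      (lineFn (X j) (X (finRotate n j))) (lineFn (X k) (X (finRotate n k))) ≠ 0 ∨
      sepE X i j ∨ sepE X j i ∨ sepE X j k ∨ sepE X k j ∨ sepE X i k ∨ sepE X k i) :
    Ordinary fun j => toR (X j) := by
  intro p i j k hi hj hk
  rcases h i j k with h | h | h | h | h | h | h | h | h | h
  · exact Or.inl h
  · exact Or.inr (Or.inl h)
  · exact Or.inr (Or.inr h)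
  · exfalso
    apply h
    have a1 := line_of_mem hi
    have a2 := line_of_mem hj
    have a3 := line_of_mem hk
    generalize lineFn (X i) (X (finRotate n i)) = f at *
    generalize lineFn (X j) (X (finRotate n j)) = g at *
    generalize lineFn (X k) (X (finRotate n k)) = l at *
    simp only [evR, fnR] at a1 a2 a3
    have : ((det3 f g l : ℤ) : ℝ) = 0 := by
      simp only [det3]
      push_cast
      linear_combination ((g.1 : ℝ) * l.2.1 - g.2.1 * l.1) * a1 -
        ((f.1 : ℝ) * l.2.1 - f.2.1 * l.1) * a2 + ((f.1 : ℝ) * g.2.1 - f.2.1 * g.1) * a3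
    exact_mod_cast this
  · exact (not_mem_of_sepE h hi hj).elim
  · exact (not_mem_of_sepE h hj hi).elim
  · exact (not_mem_of_sepE h hj hk).elim
  · exact (not_mem_of_sepE h hk hj).elim
  · exact (not_mem_of_sepE h hi hk).elim
  · exact (not_mem_of_sepE h hk hi).elim

theorem proper_of_check {n : ℕ} {X : Fin n → Pt}
    (h : ∀ i : Fin n, ev (lineFn (X i) (X (finRotate n i))) (X ((finRotate n).symm i)) ≠ 0) :
    Proper fun j => toR (X j) := by
  constructor
  · intro i hi
    apply h i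
    have : X i = X (finRotate n i) := by
      simp only [toR, Prod.mk.injEq, Int.cast_inj] at hi
      exact Prod.ext hi.1 hi.2
    rw [← this]
    simp only [ev, lineFn]
    ring
  · intro i hc
    apply h i
    rw [collinear_iff_of_mem (p₀ := toR (X i)) (by simp)] at hc
    obtain ⟨v, hv⟩ := hc
    obtain ⟨r, hr⟩ := hv (toR (X ((finRotate n).symm i))) (by simp)
    obtain ⟨s, hs⟩ := hv (toR (X (finRotate n i))) (by simp)
    simp only [toR, Prod.ext_iff, vadd_eq_add, Prod.fst_add, Prod.snd_add, Prod.smul_fst,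
      Prod.smul_snd, smul_eq_mul] at hr hs
    have : ((ev (lineFn (X i) (X (finRotate n i))) (X ((finRotate n).symm i)) : ℤ) : ℝ) = 0 := by
      simp only [ev, lineFn]
      push_cast
      rw [hr.1, hr.2, hs.1, hs.2]
      ring
    exact_mod_cast this

end Pool.Agent.Lib.MP_ab53bf_co
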