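import Mathlib
import Pool.Agent.Lib.MP_ab53bf_co.Pendant

/-!
The two decagons and the certificate that they have the same labelled pattern.
-/

set_option autoImplicit false

namespace Pool.Agent.Lib.MP_ab53bf_co

def XA : Fin 10 → Pt := ![(-4050, 450), (300, -3900), (300, 2550), (-2700, -450), (-4200, 1050), (0, 0), (-11400, -2850), (600, 3150), (600, -4350), (-5700, -1200)]

def EA : Fin 10 → Pt := ![(-4068, 490), (329, -3972), (320, 2613), (-2710, -480), (-4238, 1067), (104, 12), (-11556, -2909), (680, 3240), (642, -4421), (-5753, -1190)]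

def DA : Fin 10 → List Fn := ![
  [(12, 7, 45450), (-26, -9, -101250), (2, -5, 10646)],
  [(94, 27, 77100), (-4, 9, 37254), (-86, -45, -149700)],
  [(-76, 33, -61350), (-5, -16, 43681), (81, -17, 19050)],
  [(3, 7, 11550), (-13, 3, -33750), (9, -4, 22500)],
  [(8, 25, 7350), (-26, -45, -61950), (2, -1, 9566)],
  [(-1, 66, 0), (-13, -2, 1720), (7, -32, 0)],
  [(39, 14, 493134), (-93, 188, -524400), (27, -101, 19950)],
  [(-34, 37, -96150), (-10, -11, 42882), (122, -89, 207150)],
  [(47, 22, 67500), (-10, 17, 81988), (-84, -61, -214950)],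
  [(3, 34, 57900), (-19, -65, -186300), (13, -3, 71402)]]

def XB : Fin 10 → Pt := ![(-2550, 300), (300, -2550), (300, 3450), (-3600, -450), (-5400, 1350), (0, 0), (-15000, -3750), (600, 4050), (600, -2850), (-3600, -750)]

def EB : Fin 10 → Pt := ![(-2562, 326), (319, -2609), (326, 3516), (-3614, -488), (-5448, 1371), (136, 16), (-15204, -3827), (704, 4148), (628, -2910), (-3635, -743)]

def DB : Fin 10 → List Fn := ![
  [(31, 18, 73650), (-17, -6, -41550), (1, -2, 3230)],
  [(19, 4, 4500), (-1, 3, 8194), (-71, -31, -57750)],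
  [(-79, 41, -117750), (-7, -17, 62380), (43, -12, 28500)],
  [(1, 3, 5110), (-49, 13, -170550), (23, -11, 77850)],
  [(20, 63, 22950), (-32, -57, -95850), (2, -1, 12296)],
  [(-3, 172, 0), (-17, -2, 2930), (37, -168, 0)],
  [(51, 20, 854935), (-122, 245, -911250), (71, -265, 71250)],
  [(-55, 71, -254550), (-13, -12, 59566), (68, -59, 198150)],
  [(39, 14, 16500), (-3, 7, 22380), (-12, -7, -12750)],
  [(4, 45, 48150), (-13, -43, -79050), (9, -2, 31313)]]

def opsA : List Op := [
  .sub (-4050, 450) (300, -3900) (-2880, -720),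
  .sub (300, -3900) (300, 2550) (300, 0),
  .sub (300, 2550) (-2700, -450) (-1800, 450),
  .sub (-2700, -450) (-4200, 1050) (-4000, 850),
  .sub (-4200, 1050) (0, 0) (-3800, 950),
  .sub (-3800, 950) (0, 0) (-1800, 450),
  .sub (0, 0) (-11400, -2850) (-2880, -720),
  .sub (-2880, -720) (-11400, -2850) (-5400, -1350),
  .sub (-11400, -2850) (600, 3150) (-9400, -1850),
  .sub (-9400, -1850) (600, 3150) (-4000, 850),
  .sub (-4000, 850) (600, 3150) (-3800, 950),
  .sub (-3800, 950) (600, 3150) (0, 2850),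
  .sub (600, 3150) (600, -4350) (600, 2950),
  .sub (600, 2950) (600, -4350) (600, -4150),
  .sub (600, -4350) (-5700, -1200) (200, -4150),
  .sub (200, -4150) (-5700, -1200) (-5400, -1350),
  .mv [(133, 129, 422350), (-93, 91, -208350), (-2, -11, 1350)] (-2700, -450) (-2700, 573),
  .mv [(1, 1, 3220), (-1, 1, -2200), (-1053, -20, -2831640), (1053, -40, 2866020)] (-2710, -480) (-2700, 513),
  .mv [(-8, 47, 10800), (-55, -54, -197280), (845, -816, 3837300)] (-4050, 450) (-4050, -879),
  .mv [(1369, 48, 5586642), (-1369, 12, -5533902), (-1, -1, -3548), (1, -1, 4588)] (-4068, 490) (-4050, -819),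
  .mv [(337, 1300, 243000), (7, 100, -32400), (-7, -36, 3600), (-1, -8, 2800)] (-2700, 573) (-3600, 799),
  .mv [(-2649, 5800, -14170600), (-151, -200, -383800), (-1, -4, 0), (-101, -1000, 625800), (3001, -4200, 20439400)] (-4000, 850) (-5200, 1150),
  .mv [(-10, 9, -22350), (-227, 6, 135147), (-1, -1, 4853), (1, -1, 3445), (998, -103, -274350)] (680, 3240) (704, 4148),
  .mv [(-15, 136, 0), (-1, 1, 121), (-1, -1, 153), (1, -8, 0)] (104, 12) (136, 16),
  .mv [(-8, 47, 10800), (-92, 165, -146160), (-1, 1, -2014), (-1, -1, -3084), (19, -100, -4950), (127, -550, 63900)] (-4050, -879) (-2550, -535),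
  .mv [(1, 1, 4051), (199, 200, 804800), (1, 7, -2850), (-39, -146, -9500), (-142, -581, 18131), (1, -1, 6751)] (-4200, 1050) (-5400, 1350),
  .mv [(-1, 6, -17100), (-599, 52, 206000), (97, -104, 363104), (1, -1, 3451), (1200, -599, 1707150)] (600, 3150) (600, 4050),
  .mv [(1, 1, 4078), (5, 12, 10800), (142, 581, -17550), (-1, 1, -5304), (-1, -1, -3170), (-152, -605, 1964), (1, -1, 6820)] (-4238, 1067) (-5448, 1371),
  .mv [(1, 1, 19032), (-153, 608, 1212), (-5, 13, -19950), (244, -951, 71250), (1, -1, 11378)] (-11556, -2909) (-15204, -3827),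
  .mv [(17, 38, 143100), (-13, -1, 0), (107, -510, 0), (163, -570, 110700)] (-2880, -720) (-1800, -450),
  .mv [(13, 116, 478800), (-37, -20, -75600), (5, -26, -2700), (11, -38, 17100)] (-5400, -1350) (-3400, -850),
  .mv [(71, 41, 135750), (1, 1, 3780), (-1, 1, 5064), (-1511, -14, 909679), (-1, -1, -2281), (1, -1, -3537), (160, -3, -109050)] (642, -4421) (628, -2910),
  .mv [(1, 1, 4870), (-19, 100, 5050), (-60, 1, -152465), (-1, -1, -3024), (86, -375, 41550), (1, -1, 3232)] (-4050, -819) (-2550, -475),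
  .mv [(1, 1, 2862), (113, 450, 74700), (-1, 1, -3212), (-1, -1, -2186), (-19, -60, -20460), (60, -1, 216799)] (-2700, 513) (-3600, 739),
  .mv [(1, 1, 4050), (7, 34, -2700), (-4, 3, -8550), (5, -18, 51300)] (-3800, 950) (-5000, 1250),
  .mv [(-1599, 5000, -14245000), (-1, 1, -2849), (-1200, 599, -1705950), (299, -600, 2250600), (2501, -5000, 18755000)] (0, 2850) (0, 3750),
  .mv [(-229, 908, -6800), (1, -6, -1700), (1899, -5600, 7490600), (13, -34, 67534)] (-11400, -2850) (-15000, -3750),
  .mv [(1, 1, 6944), (9, 53, 114900), (-456, 2065, -121200), (-1, 1, -2891), (-1, -1, -4377), (149, -706, 17763), (1, -1, 4564)] (-5753, -1190) (-3635, -743),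
  .mv [(1, 1, 6901), (-351, 2300, 761600), (-63, 170, -69700), (208, -1085, -50075), (456, -2065, 123265), (1, -1, 4501)] (-5700, -1200) (-3600, -750),
  .mv [(451, 1400, 505000), (799, 3600, 0), (-17, 2, 0), (13, -53, 131250)] (-1800, 450) (-2520, 630),
  .mv [(18, 7, 21900), (1, 1, 3644), (-1, 1, 4302), (-1363, -10, 410070), (-1, -1, -2289), (1, -1, -2927), (1291, -18, -457500)] (329, -3972) (319, -2609),
  .mv [(8000, 1, -4795850), (-8000, 1, 4804150), (-200, -1, 124050), (200, -1, -115950)] (600, 2950) (600, 3850),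
  .mv [(21, 94, -6300), (-2613, 20, 783900), (-837, -19, 317487), (-1, -1, 3751), (1, -1, 3151), (2820, -2819, 8882370)] (300, 2550) (300, 3450),
  .mv [(3450, 2099, 7154550), (1, 1, 3601), (-1, 1, 4201), (-1291, 18, 458791), (-2609, -19, 782700), (3, -14, -900)] (300, -3900) (300, -2550),
  .mv [(3301, 3600, 14283400), (199, 400, 1620600), (-1700, -399, -715650), (-1, -1, -2449), (-1799, -3600, -9176600)] (200, -4150) (200, -2650),
  .mv [(1700, 1, -1015650), (-1700, 1, 1024350), (-6500, -1, 3903850), (6500, -1, -3896150)] (600, -4150) (600, -2650),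
  .mv [(-1899, 5600, -7485000), (-3001, 4200, -20435200), (3899, -7800, 29244800), (1001, -2000, 7515000)] (-9400, -1850) (-13000, -2750),
  .mv [(837, 19, -316650), (1, 1, -2932), (-1, 1, -2292), (-301, 2, 91395), (-1, -1, 3843), (1, -1, 3191), (66, -25, 66450)] (320, 2613) (326, 3516),
  .mv [(1700, 399, 717350), (1, 1, 3751), (-1, 1, 4951), (-160, 3, 109210), (-65, -7, 20450), (0, -1, -2650)] (600, -4350) (600, -2850)]

def opsB : List Op := [
  .sub (-2550, 300) (300, -2550) (-1800, -450),
  .sub (300, -2550) (300, 3450) (300, 0),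
  .sub (300, 3450) (-3600, -450) (-2520, 630),
  .sub (-3600, -450) (-5400, 1350) (-5200, 1150),
  .sub (-5400, 1350) (0, 0) (-5000, 1250),
  .sub (-5000, 1250) (0, 0) (-2520, 630),
  .sub (0, 0) (-15000, -3750) (-1800, -450),
  .sub (-1800, -450) (-15000, -3750) (-3400, -850),
  .sub (-15000, -3750) (600, 4050) (-13000, -2750),
  .sub (-13000, -2750) (600, 4050) (-5200, 1150),
  .sub (-5200, 1150) (600, 4050) (-5000, 1250),
  .sub (-5000, 1250) (600, 4050) (0, 3750),
  .sub (600, 4050) (600, -2850) (600, 3850),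
  .sub (600, 3850) (600, -2850) (600, -2650),
  .sub (600, -2850) (-3600, -750) (200, -2650),
  .sub (200, -2650) (-3600, -750) (-3400, -850),
  .mv [(63, 61, 257450), (-559, 547, -1753290), (-13, -67, 9450)] (-3600, -450) (-3600, 799),
  .mv [(1, 1, 4132), (-1, 1, -3096), (-1287, -16, -4620416), (117, -4, 424396)] (-3614, -488) (-3600, 739),
  .mv [(-1, 6, 900), (-388, -381, -869850), (538, -519, 1547550)] (-2550, 300) (-2550, -535),
  .mv [(41, 2, 105620), (-287, 6, -728640), (-1, -1, -2206), (1, -1, 2918)] (-2562, 326) (-2550, -475)]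

theorem run_eq : run (segs XA EA) opsA = run (segs XB EB) opsB ∧
    (run (segs XB EB) opsB).isSome = true := by decide +kernel

theorem pendOk_A : pendOk XA EA DA := by decide +kernel

theorem pendOk_B : pendOk XB EB DB := by decide +kernel

theorem pend_of_check {X E : Fin 10 → Pt}
    (h : ∀ i, 150 * ((E i).1 - (X i).1) =
        2 * (X i).1 - (X ((finRotate 10).symm i)).1 - (X (finRotate 10 i)).1 ∧
      150 * ((E i).2 - (X i).2) =
        2 * (X i).2 - (X ((finRotate 10).symm i)).2 - (X (finRotate 10 i)).2) (i : Fin 10) :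
    toR (E i) = Pend (fun j => toR (X j)) (1 / 150) i := by
  obtain ⟨h1, h2⟩ := h i
  have h1' := congrArg (Int.cast : ℤ → ℝ) h1
  have h2' := congrArg (Int.cast : ℤ → ℝ) h2
  push_cast at h1' h2'
  simp only [toR, Pend, Prod.ext_iff, Prod.fst_add, Prod.snd_add, Prod.smul_fst, Prod.smul_snd,
    Prod.fst_sub, Prod.snd_sub, smul_eq_mul]
  constructor <;> linarith

theorem samePattern_AB : SameLabelledPattern (fun j => toR (XA j)) (fun j => toR (XB j)) := by
  obtain ⟨L, hL⟩ := Option.isSome_iff_exists.1 run_eq.2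
  exact samePattern_of_check pendOk_A pendOk_B (by norm_num)
    (pend_of_check (by decide +kernel)) (pend_of_check (by decide +kernel))
    (run_eq.1.trans hL) hL

theorem ordinary_A : Ordinary fun j => toR (XA j) := ordinary_of_check (by decide +kernel)
theorem ordinary_B : Ordinary fun j => toR (XB j) := ordinary_of_check (by decide +kernel)
theorem proper_A : Proper fun j => toR (XA j) := proper_of_check (by decide +kernel)
theorem proper_B : Proper fun j => toR (XB j) := proper_of_check (by decide +kernel)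

end Pool.Agent.Lib.MP_ab53bf_co
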