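import Mathlib
import Pool.Agent.Lib.MP_ab53bf_co.Data

/-!
The first decagon cannot be deformed into the second one through ordinary polygons with the same
edge directions: ten strict linear inequalities are preserved along every such deformation.
-/

set_option autoImplicit false

namespace Pool.Agent.Lib.MP_ab53bf_co

/-- The first decagon. -/
def xA : Fin 10 → ℝ × ℝ := fun j => toR (XA j)

/-- The second decagon. -/
def xB : Fin 10 → ℝ × ℝ := fun j => toR (XB j)

theorem mem_seg_x {a b z : ℝ × ℝ} (m : ℝ) (hab : b.2 - a.2 = m * (b.1 - a.1))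
    (hz : z.2 - a.2 = m * (z.1 - a.1)) (h1 : a.1 < b.1) (h2 : a.1 ≤ z.1) (h3 : z.1 ≤ b.1) :
    z ∈ segment ℝ a b := by
  rw [segment_eq_image']
  have h4 : 0 < b.1 - a.1 := sub_pos.2 h1
  refine ⟨(z.1 - a.1) / (b.1 - a.1), ⟨div_nonneg (sub_nonneg.2 h2) h4.le,
    (div_le_one h4).2 (by linarith)⟩, ?_⟩
  ext
  · simp only [Prod.fst_add, Prod.smul_fst, Prod.fst_sub, smul_eq_mul]
    field_simp
    ring
  · simp only [Prod.snd_add, Prod.smul_snd, Prod.snd_sub, smul_eq_mul]
    rw [hab]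
    field_simp
    linear_combination -hz

theorem mem_seg_y {a b z : ℝ × ℝ} (hab : b.1 = a.1) (hz : z.1 = a.1) (h1 : a.2 < b.2)
    (h2 : a.2 ≤ z.2) (h3 : z.2 ≤ b.2) : z ∈ segment ℝ a b := by
  rw [segment_eq_image']
  have h4 : 0 < b.2 - a.2 := sub_pos.2 h1
  refine ⟨(z.2 - a.2) / (b.2 - a.2), ⟨div_nonneg (sub_nonneg.2 h2) h4.le,
    (div_le_one h4).2 (by linarith)⟩, ?_⟩
  ext
  · simp only [Prod.fst_add, Prod.smul_fst, Prod.fst_sub, smul_eq_mul]
    rw [hab, hz]
    ring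
  · simp only [Prod.snd_add, Prod.smul_snd, Prod.snd_sub, smul_eq_mul]
    field_simp
    ring

/-- The edge directions of the first decagon, in coordinates. -/
structure Dirs (X : Fin 10 → ℝ × ℝ) : Prop where
  e0 : (X 1).2 - (X 0).2 = -((X 1).1 - (X 0).1)
  l0 : (X 0).1 < (X 1).1
  e1 : (X 2).1 = (X 1).1
  l1 : (X 1).2 < (X 2).2
  e2 : (X 3).2 - (X 2).2 = (X 3).1 - (X 2).1
  l2 : (X 3).1 < (X 2).1
  e3 : (X 4).2 - (X 3).2 = -((X 4).1 - (X 3).1)
  l3 : (X 4).1 < (X 3).1
  e4 : (X 5).1 - (X 4).1 = -4 * ((X 5).2 - (X 4).2)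
  l4 : (X 4).1 < (X 5).1
  e5 : (X 6).1 - (X 5).1 = 4 * ((X 6).2 - (X 5).2)
  l5 : (X 6).1 < (X 5).1
  e6 : (X 7).1 - (X 6).1 = 2 * ((X 7).2 - (X 6).2)
  l6 : (X 6).1 < (X 7).1
  e7 : (X 8).1 = (X 7).1
  l7 : (X 8).2 < (X 7).2
  e8 : (X 9).1 - (X 8).1 = -2 * ((X 9).2 - (X 8).2)
  l8 : (X 9).1 < (X 8).1
  e9 : (X 0).2 - (X 9).2 = (X 0).1 - (X 9).1
  l9 : (X 9).1 < (X 0).1

theorem coords {X : Fin 10 → ℝ × ℝ} (h : Parallel xA X) (i j : Fin 10) (hj : finRotate 10 i = j)
    (a b : ℤ) (ha : (XA j).1 - (XA i).1 = a) (hb : (XA j).2 - (XA i).2 = b) :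
    ∃ c : ℝ, 0 < c ∧ (X j).1 - (X i).1 = c * a ∧ (X j).2 - (X i).2 = c * b := by
  obtain ⟨c, hc, e⟩ := h i
  rw [hj] at e
  refine ⟨c, hc, ?_, ?_⟩
  · have := congrArg Prod.fst e
    simp only [Prod.fst_sub, Prod.smul_fst, smul_eq_mul, xA, toR] at this
    rw [this, ← ha]
    push_cast
    ring
  · have := congrArg Prod.snd e
    simp only [Prod.snd_sub, Prod.smul_snd, smul_eq_mul, xA, toR] at this
    rw [this, ← hb]
    push_cast
    ring

theorem dirs_of_parallel {X : Fin 10 → ℝ × ℝ} (h : Parallel xA X) : Dirs X := by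
  obtain ⟨c0, p0, a0, b0⟩ := coords h 0 1 (by decide) 4350 (-4350) (by decide) (by decide)
  obtain ⟨c1, p1, a1, b1⟩ := coords h 1 2 (by decide) 0 6450 (by decide) (by decide)
  obtain ⟨c2, p2, a2, b2⟩ := coords h 2 3 (by decide) (-3000) (-3000) (by decide) (by decide)
  obtain ⟨c3, p3, a3, b3⟩ := coords h 3 4 (by decide) (-1500) 1500 (by decide) (by decide)
  obtain ⟨c4, p4, a4, b4⟩ := coords h 4 5 (by decide) 4200 (-1050) (by decide) (by decide)
  obtain ⟨c5, p5, a5, b5⟩ := coords h 5 6 (by decide) (-11400) (-2850) (by decide) (by decide)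
  obtain ⟨c6, p6, a6, b6⟩ := coords h 6 7 (by decide) 12000 6000 (by decide) (by decide)
  obtain ⟨c7, p7, a7, b7⟩ := coords h 7 8 (by decide) 0 (-7500) (by decide) (by decide)
  obtain ⟨c8, p8, a8, b8⟩ := coords h 8 9 (by decide) (-6300) 3150 (by decide) (by decide)
  obtain ⟨c9, p9, a9, b9⟩ := coords h 9 0 (by decide) 1650 1650 (by decide) (by decide)
  push_cast at *
  constructor <;> linarith

/-- The smallest of the ten linear functionals. -/
noncomputable def gap (X : Fin 10 → ℝ × ℝ) : ℝ :=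
  min (2 * ((X 4).2 - (X 6).2) - ((X 4).1 - (X 6).1)) <|
  min (((X 2).1 - (X 6).1) - 2 * ((X 2).2 - (X 6).2)) <|
  min ((X 1).1 - (X 5).1) <|
  min (((X 2).2 - (X 2).1) - ((X 5).2 - (X 5).1)) <|
  min (((X 5).1 + (X 5).2) - ((X 0).1 + (X 0).2)) <|
  min (4 * ((X 9).2 - (X 5).2) - ((X 9).1 - (X 5).1)) <|
  min (((X 9).1 - (X 6).1) - 2 * ((X 9).2 - (X 6).2)) <|
  min (2 * ((X 1).2 - (X 8).2) + ((X 1).1 - (X 8).1)) <|
  min ((X 7).1 - (X 1).1) (((X 3).1 + (X 3).2) - ((X 0).1 + (X 0).2))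

theorem continuous_gap : Continuous gap := by
  unfold gap
  fun_prop

theorem no_triple {X : Fin 10 → ℝ × ℝ} (hO : Ordinary X) (i j k l : Fin 10)
    (hi : finRotate 10 i = j) (hl : finRotate 10 k = l) (hne : i ≠ j ∧ j ≠ k ∧ i ≠ k)
    (h : X j ∈ segment ℝ (X k) (X l)) : False := by
  rcases hO (X j) i j k (by unfold Edge; rw [hi]; exact right_mem_segment _ _ _)
    (left_mem_segment _ _ _) (by unfold Edge; rw [hl]; exact h) with h | h | h
  · exact hne.1 h
  · exact hne.2.1 h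
  · exact hne.2.2 h

theorem gap_ne_zero {X : Fin 10 → ℝ × ℝ} (hO : Ordinary X) (hP : Parallel xA X) : gap X ≠ 0 := by
  intro h0
  obtain ⟨e0, l0, e1, l1, e2, l2, e3, l3, e4, l4, e5, l5, e6, l6, e7, l7, e8, l8, e9, l9⟩ :=
    dirs_of_parallel hP
  have h1 := h0.ge
  unfold gap at h1
  simp only [le_min_iff] at h1
  obtain ⟨g1, g2, g3, g4, g5, g6, g7, g8, g9, g10⟩ := h1
  refine (ne_of_gt ?_) h0
  unfold gap
  simp only [lt_min_iff]
  refine ⟨lt_of_le_of_ne g1 fun h => ?_, lt_of_le_of_ne g2 fun h => ?_,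
    lt_of_le_of_ne g3 fun h => ?_, lt_of_le_of_ne g4 fun h => ?_, lt_of_le_of_ne g5 fun h => ?_,
    lt_of_le_of_ne g6 fun h => ?_, lt_of_le_of_ne g7 fun h => ?_, lt_of_le_of_ne g8 fun h => ?_,
    lt_of_le_of_ne g9 fun h => ?_, lt_of_le_of_ne g10 fun h => ?_⟩
  · exact no_triple hO 3 4 6 7 (by decide) (by decide) (by decide)
      (mem_seg_x (1 / 2) (by linarith) (by linarith) l6 (by linarith) (by linarith))
  · exact no_triple hO 1 2 6 7 (by decide) (by decide) (by decide)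
      (mem_seg_x (1 / 2) (by linarith) (by linarith) l6 (by linarith) (by linarith))
  · exact no_triple hO 4 5 1 2 (by decide) (by decide) (by decide)
      (mem_seg_y e1 (by linarith) l1 (by linarith) (by linarith))
  · refine no_triple hO 4 5 2 3 (by decide) (by decide) (by decide) ?_
    rw [segment_symm]
    exact mem_seg_x 1 (by linarith) (by linarith) l2 (by linarith) (by linarith)
  · exact no_triple hO 4 5 0 1 (by decide) (by decide) (by decide)
      (mem_seg_x (-1) (by linarith) (by linarith) l0 (by linarith) (by linarith))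
  · refine no_triple hO 8 9 5 6 (by decide) (by decide) (by decide) ?_
    rw [segment_symm]
    exact mem_seg_x (1 / 4) (by linarith) (by linarith) l5 (by linarith) (by linarith)
  · exact no_triple hO 8 9 6 7 (by decide) (by decide) (by decide)
      (mem_seg_x (1 / 2) (by linarith) (by linarith) l6 (by linarith) (by linarith))
  · refine no_triple hO 0 1 8 9 (by decide) (by decide) (by decide) ?_
    rw [segment_symm]
    exact mem_seg_x (-1 / 2) (by linarith) (by linarith) l8 (by linarith) (by linarith)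
  · refine no_triple hO 0 1 7 8 (by decide) (by decide) (by decide) ?_
    rw [segment_symm]
    exact mem_seg_y e7.symm (by linarith) l7 (by linarith) (by linarith)
  · exact no_triple hO 2 3 0 1 (by decide) (by decide) (by decide)
      (mem_seg_x (-1) (by linarith) (by linarith) l0 (by linarith) (by linarith))

theorem gap_xA : 0 < gap xA := by
  unfold gap
  simp only [lt_min_iff, xA, toR]
  norm_cast

theorem gap_xB : gap xB < 0 := by
  unfold gap
  simp only [min_lt_iff, xB, toR]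
  norm_cast

theorem parallel_AB : Parallel xA xB := by
  have key : ∀ i : Fin 10, ∃ p ∈ [(19, 29), (40, 43), (13, 10), (6, 5), (9, 7), (25, 19),
      (23, 25), (2, 3), (7, 11)], (0 : ℤ) < p.1 ∧ (0 : ℤ) < p.2 ∧
      p.2 * ((XB (finRotate 10 i)).1 - (XB i).1) = p.1 * ((XA (finRotate 10 i)).1 - (XA i).1) ∧
      p.2 * ((XB (finRotate 10 i)).2 - (XB i).2) = p.1 * ((XA (finRotate 10 i)).2 - (XA i).2) := by
    decide +kernel
  intro i
  obtain ⟨p, -, h1, h2, h3, h4⟩ := key i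
  have h1' : (0 : ℝ) < p.1 := by exact_mod_cast h1
  have h2' : (0 : ℝ) < p.2 := by exact_mod_cast h2
  have h3' := congrArg (Int.cast : ℤ → ℝ) h3
  have h4' := congrArg (Int.cast : ℤ → ℝ) h4
  push_cast at h3' h4'
  refine ⟨p.1 / p.2, div_pos h1' h2', ?_⟩
  ext
  · simp only [Prod.fst_sub, Prod.smul_fst, smul_eq_mul, xA, xB, toR]
    field_simp
    linear_combination h3'
  · simp only [Prod.snd_sub, Prod.smul_snd, smul_eq_mul, xA, xB, toR]
    field_simp
    linear_combination h4'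

theorem eq_one_of_dihedral {σ : Equiv.Perm (Fin 10)} (hσ : Dihedral σ)
    (hP : Parallel xA fun i => xB (σ i)) (i : Fin 10) : σ i = i := by
  have d := dirs_of_parallel hP
  have e4 := d.e4
  have l4 := d.l4
  simp only [xB, toR] at e4 l4
  have e4' : (XB (σ 5)).1 - (XB (σ 4)).1 = -4 * ((XB (σ 5)).2 - (XB (σ 4)).2) := by
    exact_mod_cast e4
  have l4' : (XB (σ 4)).1 < (XB (σ 5)).1 := by exact_mod_cast l4
  rcases hσ with h | h
  · have h5 : σ 5 = finRotate 10 (σ 4) := h 4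
    rw [h5] at e4' l4'
    have h4 : σ 4 = 4 := by
      revert e4' l4'
      generalize σ 4 = j
      revert j
      decide +kernel
    have s5 : σ 5 = 5 := by rw [h5, h4]; decide
    have s6 : σ 6 = 6 := by rw [show σ 6 = finRotate 10 (σ 5) from h 5, s5]; decide
    have s7 : σ 7 = 7 := by rw [show σ 7 = finRotate 10 (σ 6) from h 6, s6]; decide
    have s8 : σ 8 = 8 := by rw [show σ 8 = finRotate 10 (σ 7) from h 7, s7]; decide
    have s9 : σ 9 = 9 := by rw [show σ 9 = finRotate 10 (σ 8) from h 8, s8]; decide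
    have s0 : σ 0 = 0 := by rw [show σ 0 = finRotate 10 (σ 9) from h 9, s9]; decide
    have s1 : σ 1 = 1 := by rw [show σ 1 = finRotate 10 (σ 0) from h 0, s0]; decide
    have s2 : σ 2 = 2 := by rw [show σ 2 = finRotate 10 (σ 1) from h 1, s1]; decide
    have s3 : σ 3 = 3 := by rw [show σ 3 = finRotate 10 (σ 2) from h 2, s2]; decide
    fin_cases i
    exacts [s0, s1, s2, s3, h4, s5, s6, s7, s8, s9]
  · exfalso
    have h5 : σ 5 = (finRotate 10).symm (σ 4) := h 4
    rw [h5] at e4' l4'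
    revert e4' l4'
    generalize σ 4 = j
    revert j
    decide +kernel

theorem no_deformation {σ : Equiv.Perm (Fin 10)} (hσ : Dihedral σ)
    (hP : Parallel xA fun i => xB (σ i)) (X : ℝ → Fin 10 → ℝ × ℝ)
    (hc : ∀ j, ContinuousOn (fun t => X t j) (Set.Icc (0 : ℝ) 1)) (h0 : X 0 = xA)
    (h1 : X 1 = fun i => xB (σ i))
    (h : ∀ t ∈ Set.Icc (0 : ℝ) 1, Ordinary (X t) ∧ Parallel xA (X t)) : False := by
  have h1' : X 1 = xB := by
    rw [h1]
    funext i
    rw [eq_one_of_dihedral hσ hP i]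
  have hg : ContinuousOn (fun t => gap (X t)) (Set.Icc (0 : ℝ) 1) :=
    continuous_gap.comp_continuousOn (continuousOn_pi.2 hc)
  obtain ⟨t, ht, e⟩ := intermediate_value_Icc' zero_le_one hg
    (show (0 : ℝ) ∈ Set.Icc (gap (X 1)) (gap (X 0)) by
      rw [h0, h1']; exact ⟨gap_xB.le, gap_xA.le⟩)
  exact gap_ne_zero (h t ht).1 (h t ht).2 e

end Pool.Agent.Lib.MP_ab53bf_co
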